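import Pool.Agent.Q179.Psi.Space

/-!
A regular space (the space of Mrówka over an infinite maximal almost disjoint family) in which
Bob has a winning strategy in PONAG(X), but which is not totally paracompact.
-/

namespace Pool.Agent.Results.MP_74305c_gt.BobWinsNotTotallyParacompact

open Q179.Psi

theorem result : ∃ (X : Type) (_ : TopologicalSpace X), Infinite X ∧ T3Space X ∧
    BobWins X ∧ ¬ TotallyParacompact X :=
  exists_space

end Pool.Agent.Results.MP_74305c_gt.BobWinsNotTotallyParacompact
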